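import Mathlib

namespace Pool.Agent.Work.MP_122049_pr

/-- The words `U` and `V` have a common subsequence of length `m`. -/
def IsCommon {k n : ℕ} (U V : Fin n → Fin k) (m : ℕ) : Prop :=
  ∃ i j : Fin m → Fin n, StrictMono i ∧ StrictMono j ∧ ∀ s, U (i s) = V (j s)

/-- The length of a longest common subsequence of `U` and `V`. -/
noncomputable def lcs {k n : ℕ} (U V : Fin n → Fin k) : ℕ :=
  sSup {m | IsCommon U V m}

/-- The probability that two independent uniform words of length `n` over `k` letters have a
longest common subsequence of length exactly `i`. -/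
noncomputable def prob (k n i : ℕ) : ℝ :=
  (Nat.card {p : (Fin n → Fin k) × (Fin n → Fin k) // lcs p.1 p.2 = i} : ℝ) / (k : ℝ) ^ (2 * n)

end Pool.Agent.Work.MP_122049_pr
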