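import Pool.Agent.Work.MP_122049_pr.Defs

-- merged part: Pool.Agent.Work.MP_122049_pr.Basic
section
namespace Pool.Agent.Work.MP_122049_pr

open Finset

variable {k n : ℕ}

lemma IsCommon.le {U V : Fin n → Fin k} {m : ℕ} (h : IsCommon U V m) : m ≤ n := by
  obtain ⟨i, _, hi, _, _⟩ := h
  simpa using Fintype.card_le_of_injective i hi.injective

lemma IsCommon.mono {U V : Fin n → Fin k} {m m' : ℕ} (h : IsCommon U V m) (hm : m' ≤ m) :
    IsCommon U V m' := by
  obtain ⟨i, j, hi, hj, hs⟩ := h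
  exact ⟨i ∘ Fin.castLE hm, j ∘ Fin.castLE hm, hi.comp (Fin.strictMono_castLE hm),
    hj.comp (Fin.strictMono_castLE hm), fun s => hs _⟩

lemma isCommon_zero (U V : Fin n → Fin k) : IsCommon U V 0 :=
  ⟨Fin.elim0, Fin.elim0, fun a => a.elim0, fun a => a.elim0, fun a => a.elim0⟩

lemma isCommon_iff {U V : Fin n → Fin k} {m : ℕ} : IsCommon U V m ↔ m ≤ lcs U V := by
  have hb : BddAbove {m | IsCommon U V m} := ⟨n, fun m hm => IsCommon.le hm⟩
  constructor
  · intro h
    exact le_csSup hb h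
  · intro h
    have : IsCommon U V (lcs U V) := Nat.sSup_mem ⟨0, isCommon_zero U V⟩ hb
    exact this.mono h

lemma isCommon_one {U V : Fin n → Fin k} {s t : Fin n} (h : U s = V t) : IsCommon U V 1 :=
  ⟨fun _ => s, fun _ => t, Subsingleton.strictMono _, Subsingleton.strictMono _, fun _ => h⟩

lemma isCommon_two {U V : Fin n → Fin k} {s s' t t' : Fin n} (hs : s < s') (ht : t < t')
    (h : U s = V t) (h' : U s' = V t') : IsCommon U V 2 := by
  refine ⟨![s, s'], ![t, t'], ?_, ?_, ?_⟩
  · intro a b hab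
    fin_cases a <;> fin_cases b <;> simp_all
  · intro a b hab
    fin_cases a <;> fin_cases b <;> simp_all
  · intro a
    fin_cases a <;> simp_all

lemma lcs_eq_zero_iff {U V : Fin n → Fin k} : lcs U V = 0 ↔ ∀ s t, U s ≠ V t := by
  constructor
  · intro h s t hst
    have := isCommon_iff.1 (isCommon_one hst)
    omega
  · intro h
    by_contra hne
    have : IsCommon U V 1 := isCommon_iff.2 (by omega)
    obtain ⟨i, j, _, _, hs⟩ := this
    exact h _ _ (hs 0)

open Classical in
/-- Pairs with a longest common subsequence of length `i`. -/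
noncomputable def level (k n i : ℕ) : Finset ((Fin n → Fin k) × (Fin n → Fin k)) :=
  univ.filter fun p => lcs p.1 p.2 = i

lemma mem_level {i : ℕ} {p : (Fin n → Fin k) × (Fin n → Fin k)} :
    p ∈ level k n i ↔ lcs p.1 p.2 = i := by
  simp [level]

lemma prob_eq (k n i : ℕ) : prob k n i = ((level k n i).card : ℝ) / (k : ℝ) ^ (2 * n) := by
  unfold prob
  congr 2
  rw [← Nat.card_eq_finsetCard]
  exact Nat.card_congr (Equiv.subtypeEquivRight fun p => mem_level.symm)

lemma level_pos (hk : 2 ≤ k) {i : ℕ} (hi : i ≤ n) : 0 < (level k n i).card := by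
  rw [card_pos]
  let z : Fin k := ⟨0, by omega⟩
  let o : Fin k := ⟨1, by omega⟩
  refine ⟨(fun _ => z, fun t => if t.val < i then z else o), mem_level.2 ?_⟩
  apply le_antisymm
  · by_contra hlt
    have : IsCommon (fun _ : Fin n => z) (fun t => if t.val < i then z else o) (i + 1) :=
      isCommon_iff.2 (by simp only [not_le] at hlt; exact hlt)
    obtain ⟨_, j, _, hj, hs⟩ := this
    have h1 : ∀ s, (j s).val < i := by
      intro s
      by_contra h
      have := hs s
      simp [h, z, o] at this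
    have h2 : Function.Injective fun s => (⟨(j s).val, h1 s⟩ : Fin i) := by
      intro a b hab
      apply hj.injective
      simp only [Fin.mk.injEq] at hab
      exact Fin.ext hab
    have := Fintype.card_le_of_injective _ h2
    simp at this
  · apply isCommon_iff.1
    exact ⟨Fin.castLE hi, Fin.castLE hi, Fin.strictMono_castLE hi, Fin.strictMono_castLE hi,
      fun s => by simp⟩

open Classical in
lemma card_strictMono (m : ℕ) :
    (univ.filter fun i : Fin m → Fin n => StrictMono i).card ≤ n.choose m := by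
  have : (powersetCard m (univ : Finset (Fin n))).card = n.choose m := by simp
  rw [← this]
  refine card_le_card_of_injOn (fun i => univ.image i) ?_ ?_
  · intro i hi
    simp only [coe_filter, mem_univ, true_and, Set.mem_ofPred_eq] at hi
    simp [mem_powersetCard, card_image_of_injective _ hi.injective]
  · intro i hi j hj hij
    simp only [coe_filter, mem_univ, true_and, Set.mem_ofPred_eq] at hi hj
    have hc : (univ.image i).card = m := by simp [card_image_of_injective _ hi.injective]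
    have h1 := orderEmbOfFin_unique hc (f := i) (fun x => by simp) hi
    have h2 := orderEmbOfFin_unique hc (f := j) (fun x => by
      have : image i univ = image j univ := hij
      rw [this]; simp) hj
    rw [h1, h2]

open Classical in
lemma card_match {m : ℕ} (i j : Fin m → Fin n) (hj : Function.Injective j) :
    (univ.filter fun p : (Fin n → Fin k) × (Fin n → Fin k) =>
      ∀ s, p.1 (i s) = p.2 (j s)).card ≤ k ^ n * k ^ (n - m) := by
  have hc : Fintype.card {t : Fin n // t ∉ univ.image j} = n - m := by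
    rw [Fintype.card_subtype_compl, Fintype.card_coe, card_image_of_injective _ hj]
    simp
  have : (univ : Finset ((Fin n → Fin k) × ({t : Fin n // t ∉ univ.image j} → Fin k))).card =
      k ^ n * k ^ (n - m) := by
    simp only [card_univ, Fintype.card_prod, Fintype.card_fun, Fintype.card_fin, hc]
  rw [← this]
  refine card_le_card_of_injOn (fun p => (p.1, fun t => p.2 t.1)) (fun _ _ => by simp) ?_
  intro p hp q hq hpq
  simp only [coe_filter, mem_univ, true_and, Set.mem_ofPred_eq] at hp hq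
  simp only [Prod.mk.injEq] at hpq
  refine Prod.ext hpq.1 (funext fun t => ?_)
  by_cases ht : t ∈ univ.image j
  · obtain ⟨s, _, rfl⟩ := mem_image.1 ht
    rw [← hp, ← hq, hpq.1]
  · exact congrFun hpq.2 ⟨t, ht⟩

open Classical in
lemma card_upper (m : ℕ) :
    (univ.filter fun p : (Fin n → Fin k) × (Fin n → Fin k) => m ≤ lcs p.1 p.2).card ≤
      n.choose m ^ 2 * (k ^ n * k ^ (n - m)) := by
  let I := univ.filter fun i : Fin m → Fin n => StrictMono i
  have hsub : (univ.filter fun p : (Fin n → Fin k) × (Fin n → Fin k) => m ≤ lcs p.1 p.2) ⊆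
      (I ×ˢ I).biUnion fun ij => univ.filter fun p : (Fin n → Fin k) × (Fin n → Fin k) =>
        ∀ s, p.1 (ij.1 s) = p.2 (ij.2 s) := by
    intro p hp
    simp only [mem_filter, mem_univ, true_and] at hp
    obtain ⟨i, j, hi, hj, hs⟩ := isCommon_iff.2 hp
    simp only [mem_biUnion, mem_product, mem_filter, mem_univ, true_and, I]
    exact ⟨(i, j), ⟨hi, hj⟩, hs⟩
  refine (card_le_card hsub).trans (card_biUnion_le.trans ?_)
  refine (sum_le_card_nsmul _ _ (k ^ n * k ^ (n - m)) ?_).trans ?_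
  · intro ij hij
    simp only [mem_product, mem_filter, mem_univ, true_and, I] at hij
    exact card_match ij.1 ij.2 hij.2.injective
  · rw [card_product, smul_eq_mul, sq]
    gcongr <;> exact card_strictMono m

lemma level_zero_upper : (level k n 0).card * 4 ^ n ≤ 2 ^ k * k ^ (2 * n) := by
  classical
  have hsub : level k n 0 ⊆ (univ : Finset (Finset (Fin k))).biUnion fun S =>
      (Fintype.piFinset fun _ : Fin n => S) ×ˢ (Fintype.piFinset fun _ : Fin n => Sᶜ) := by
    intro p hp
    rw [mem_level, lcs_eq_zero_iff] at hp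
    simp only [mem_biUnion, mem_univ, true_and, mem_product, Fintype.mem_piFinset]
    refine ⟨univ.image p.1, fun s => by simp, fun t => ?_⟩
    simp only [mem_compl, mem_image, mem_univ, true_and, not_exists]
    exact fun s => hp s t
  have h1 := (card_le_card hsub).trans card_biUnion_le
  refine (Nat.mul_le_mul_right _ h1).trans ?_
  rw [sum_mul]
  refine (sum_le_card_nsmul _ _ (k ^ (2 * n)) ?_).trans ?_
  · intro S _
    simp only [card_product, Fintype.card_piFinset, prod_const, card_univ, Fintype.card_fin]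
    rw [← mul_pow, ← mul_pow, pow_mul]
    apply Nat.pow_le_pow_left
    have : S.card + Sᶜ.card = k := by simp
    nlinarith [sq_nonneg ((S.card : ℤ) - Sᶜ.card)]
  · simp

lemma level_zero_lower (a : ℕ) : a ^ (2 * n) ≤ (level (2 * a) n 0).card := by
  classical
  obtain ⟨S, _, hS⟩ := exists_subset_card_eq (s := (univ : Finset (Fin (2 * a)))) (n := a)
    (by simp; omega)
  have hSc : Sᶜ.card = a := by rw [card_compl, hS]; simp; omega
  have hsub : (Fintype.piFinset fun _ : Fin n => S) ×ˢ (Fintype.piFinset fun _ : Fin n => Sᶜ) ⊆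
      level (2 * a) n 0 := by
    intro p hp
    simp only [mem_product, Fintype.mem_piFinset, mem_compl] at hp
    rw [mem_level, lcs_eq_zero_iff]
    intro s t hst
    exact hp.2 t (hst ▸ hp.1 s)
  refine le_trans (le_of_eq ?_) (card_le_card hsub)
  simp only [card_product, Fintype.card_piFinset, prod_const, card_univ, Fintype.card_fin, hS, hSc]
  ring

end Pool.Agent.Work.MP_122049_pr
end

-- merged part: Pool.Agent.Work.MP_122049_pr.One
section
namespace Pool.Agent.Work.MP_122049_pr

open Finset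

variable {k n : ℕ}

/-- Letters occurring both before and after position `h`. -/
def Spread (h : ℕ) (W : Fin n → Fin k) (σ : Fin k) : Prop :=
  (∃ t : Fin n, t.val < h ∧ W t = σ) ∧ ∃ t : Fin n, h ≤ t.val ∧ W t = σ

/-- Letters occurring at least twice. -/
def Rep (W : Fin n → Fin k) (σ : Fin k) : Prop :=
  ∃ s t : Fin n, s < t ∧ W s = σ ∧ W t = σ

lemma IsCommon.symm {U V : Fin n → Fin k} {m : ℕ} (h : IsCommon U V m) : IsCommon V U m := by
  obtain ⟨i, j, hi, hj, hs⟩ := h
  exact ⟨j, i, hj, hi, fun s => (hs s).symm⟩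

lemma Spread.rep {h : ℕ} {W : Fin n → Fin k} {σ : Fin k} (hs : Spread h W σ) : Rep W σ := by
  obtain ⟨⟨s, hs, h1⟩, t, ht, h2⟩ := hs
  exact ⟨s, t, by rw [Fin.lt_def]; omega, h1, h2⟩

lemma not_rep_rep {U V : Fin n → Fin k} (hc : ¬ IsCommon U V 2) {σ : Fin k} (hU : Rep U σ)
    (hV : Rep V σ) : False := by
  obtain ⟨s, s', hs, h1, h2⟩ := hU
  obtain ⟨t, t', ht, h3, h4⟩ := hV
  exact hc (isCommon_two hs ht (h1.trans h3.symm) (h2.trans h4.symm))

lemma exists_exceptional {h : ℕ} (hn : 0 < n) {U V : Fin n → Fin k} (hc : ¬ IsCommon U V 2) :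
    ∃ t : Fin n, ∀ s, s ≠ t → ¬ Spread h V (U s) := by
  have key : ∀ s s' : Fin n, s < s' → Spread h V (U s) → Spread h V (U s') → False := by
    intro s s' hs h1 h2
    obtain ⟨⟨t, ht, h3⟩, _⟩ := h1
    obtain ⟨_, t', ht', h4⟩ := h2
    exact hc (isCommon_two hs (show t < t' by rw [Fin.lt_def]; omega) h3.symm h4.symm)
  by_cases hex : ∃ t, Spread h V (U t)
  · obtain ⟨t, ht⟩ := hex
    refine ⟨t, fun s hs h1 => ?_⟩
    rcases lt_or_gt_of_ne hs with h2 | h2
    · exact key s t h2 h1 ht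
    · exact key t s h2 ht h1
  · exact ⟨⟨0, hn⟩, fun s _ h1 => hex ⟨s, h1⟩⟩

open Classical in
lemma card_good (h : ℕ) (hn : 2 ≤ n) :
    ((level k n 1).filter fun p => ∀ σ, Spread h p.1 σ ∨ Spread h p.2 σ).card ≤
      (level k n 0).card * (n * k) ^ 2 := by
  have hc : ((level k n 0) ×ˢ (univ : Finset ((Fin n × Fin k) × (Fin n × Fin k)))).card =
      (level k n 0).card * (n * k) ^ 2 := by
    simp [sq]
  rw [← hc]
  refine le_trans (card_le_card ?_) (card_image_le (f := fun q =>
    (Function.update q.1.1 q.2.1.1 q.2.1.2, Function.update q.1.2 q.2.2.1 q.2.2.2)))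
  rintro ⟨U, V⟩ hp
  simp only [mem_filter, mem_level] at hp
  obtain ⟨h1, hall⟩ := hp
  have hc1 : ¬ IsCommon U V 2 := fun h => by have := isCommon_iff.1 h; omega
  have hc2 : ¬ IsCommon V U 2 := fun h => hc1 h.symm
  obtain ⟨t, ht⟩ := exists_exceptional (h := h) (by omega) hc1
  obtain ⟨t', ht'⟩ := exists_exceptional (h := h) (by omega) hc2
  have : Nontrivial (Fin n) := Fin.nontrivial_iff_two_le.2 hn
  obtain ⟨s, hs⟩ := exists_ne t
  obtain ⟨s', hs'⟩ := exists_ne t'
  have hU : ∀ x, ¬ Spread h V (Function.update U t (U s) x) := by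
    intro x
    by_cases hx : x = t
    · subst hx; simpa using ht s hs
    · simpa [hx] using ht x hx
  have hV : ∀ x, ¬ Spread h U (Function.update V t' (V s') x) := by
    intro x
    by_cases hx : x = t'
    · subst hx; simpa using ht' s' hs'
    · simpa [hx] using ht' x hx
  simp only [mem_image, mem_product, mem_univ, and_true]
  refine ⟨((Function.update U t (U s), Function.update V t' (V s')), ((t, U t), (t', V t'))),
    ?_, by simp⟩
  rw [mem_level, lcs_eq_zero_iff]
  intro x y hxy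
  have hxy' : Function.update U t (U s) x = Function.update V t' (V s') y := hxy
  rcases hall (Function.update U t (U s) x) with h2 | h2
  · exact hV y (hxy' ▸ h2)
  · exact hU x h2

open Classical in
/-- Words using, outside at most `k` positions, letters of `X` before `h` and of `Y` after. -/
noncomputable def words (k h : ℕ) (X Y : Finset (Fin k)) : Finset (Fin (2 * h) → Fin k) :=
  (powersetCard k (univ : Finset (Fin (2 * h)))).biUnion fun E =>
    Fintype.piFinset fun t => if t ∈ E then univ else if t.val < h then X else Y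

lemma card_words (h : ℕ) (X Y : Finset (Fin k)) (hX : X.Nonempty) (hY : Y.Nonempty) :
    (words k h X Y).card ≤ (2 * h * k) ^ k * (X.card * Y.card) ^ h := by
  classical
  refine card_biUnion_le.trans ?_
  refine (sum_le_card_nsmul _ _ (k ^ k * (X.card * Y.card) ^ h) ?_).trans ?_
  · intro E hE
    rw [Fintype.card_piFinset]
    have hE' : E.card = k := (mem_powersetCard.1 hE).2
    have h1 : ∏ t : Fin (2 * h), (if t ∈ E then k else 1) = k ^ k := by
      rw [prod_ite_mem, univ_inter, prod_const, hE']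
    have h2 : ∏ t : Fin (2 * h), (if t.val < h then X.card else Y.card) =
        (X.card * Y.card) ^ h := by
      rw [Fin.prod_univ_eq_prod_range (fun t => if t < h then X.card else Y.card), two_mul,
        prod_range_add, mul_pow]
      congr 1
      · rw [prod_congr rfl (g := fun _ => X.card) (fun t ht => by simp [mem_range.1 ht])]
        simp
      · simp
    rw [← h1, ← h2, ← prod_mul_distrib]
    refine prod_le_prod' fun t _ => ?_
    have hX' := hX.card_pos
    have hY' := hY.card_pos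
    split_ifs
    · simpa using Nat.le_mul_of_pos_right k hX'
    · simpa using Nat.le_mul_of_pos_right k hY'
    · simp
    · simp
  · rw [card_powersetCard, smul_eq_mul, mul_pow (2 * h) k k, ← mul_assoc]
    gcongr
    simpa using Nat.choose_le_pow (2 * h) k

open Classical in
lemma mem_words {h : ℕ} (hk : k < h) (W : Fin (2 * h) → Fin k) :
    let X := univ.filter fun σ => Rep W σ ∧ ∃ t : Fin (2 * h), t.val < h ∧ W t = σ
    let Y := univ.filter fun σ => Rep W σ ∧ ∃ t : Fin (2 * h), h ≤ t.val ∧ W t = σ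
    W ∈ words k h X Y ∧ X.Nonempty ∧ Y.Nonempty := by
  intro X Y
  let E₀ : Finset (Fin (2 * h)) := univ.filter fun t => ¬ Rep W (W t)
  have hE₀ : E₀.card ≤ k := by
    have : E₀.card ≤ (univ : Finset (Fin k)).card := by
      refine card_le_card_of_injOn W (fun _ _ => by simp) ?_
      intro s hs t _ hst
      simp only [E₀, coe_filter, mem_univ, true_and, Set.mem_ofPred_eq] at hs
      by_contra hne
      rcases lt_or_gt_of_ne hne with h1 | h1
      · exact hs ⟨s, t, h1, rfl, hst.symm⟩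
      · exact hs ⟨t, s, h1, hst.symm, rfl⟩
    simpa using this
  obtain ⟨E, hE, hEc⟩ := exists_superset_card_eq hE₀ (by simp; omega)
  have hrep : ∀ t, t ∉ E → Rep W (W t) := by
    intro t ht
    by_contra h1
    exact ht (hE (by simp [E₀, h1]))
  refine ⟨?_, ?_, ?_⟩
  · simp only [words, mem_biUnion, Fintype.mem_piFinset]
    refine ⟨E, mem_powersetCard.2 ⟨subset_univ _, hEc⟩, fun t => ?_⟩
    split_ifs with h1 h2
    · simp
    · simp only [X, mem_filter, mem_univ, true_and]
      exact ⟨hrep t h1, t, h2, rfl⟩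
    · simp only [Y, mem_filter, mem_univ, true_and]
      exact ⟨hrep t h1, t, not_lt.1 h2, rfl⟩
  · by_contra hne
    have h1 : ∀ t : Fin h, (⟨t.val, by omega⟩ : Fin (2 * h)) ∈ E := by
      intro t
      by_contra h2
      exact hne ⟨_, by
        simp only [X, mem_filter, mem_univ, true_and]
        exact ⟨hrep _ h2, _, t.2, rfl⟩⟩
    have : (univ : Finset (Fin h)).card ≤ E.card :=
      card_le_card_of_injOn (fun t => (⟨t.val, by omega⟩ : Fin (2 * h))) (fun t _ => h1 t)
        (fun s _ t _ hst => by simpa [Fin.ext_iff] using hst)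
    simp at this
    omega
  · by_contra hne
    have h1 : ∀ t : Fin h, (⟨h + t.val, by omega⟩ : Fin (2 * h)) ∈ E := by
      intro t
      by_contra h2
      exact hne ⟨_, by
        simp only [Y, mem_filter, mem_univ, true_and]
        exact ⟨hrep _ h2, _, by simp, rfl⟩⟩
    have : (univ : Finset (Fin h)).card ≤ E.card :=
      card_le_card_of_injOn (fun t => (⟨h + t.val, by omega⟩ : Fin (2 * h))) (fun t _ => h1 t)
        (fun s _ t _ hst => by simpa [Fin.ext_iff] using hst)
    simp at this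
    omega

lemma amgm4 (x y z w S : ℕ) (h : x + y + z + w ≤ S) : x * y * (z * w) * 256 ≤ S ^ 4 := by
  have h1 : 4 * (x * y) ≤ (x + y) ^ 2 := by nlinarith [sq_nonneg ((x : ℤ) - y)]
  have h2 : 4 * (z * w) ≤ (z + w) ^ 2 := by nlinarith [sq_nonneg ((z : ℤ) - w)]
  have h3 : 4 * ((x + y) * (z + w)) ≤ S ^ 2 := by
    have : 4 * ((x + y) * (z + w)) ≤ (x + y + (z + w)) ^ 2 := by
      generalize x + y = u
      generalize z + w = v
      nlinarith [sq_nonneg ((u : ℤ) - v)]
    exact this.trans (Nat.pow_le_pow_left (by omega) 2)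
  have h4 := Nat.mul_le_mul h1 h2
  have h5 := Nat.mul_le_mul h3 h3
  nlinarith

lemma ite_aux1 {R R' a b c d : Prop} [Decidable (R ∧ a)] [Decidable (R ∧ b)]
    [Decidable (R' ∧ c)] [Decidable (R' ∧ d)] (h : R → R' → False) :
    (if R ∧ a then 1 else 0) + (if R ∧ b then 1 else 0) + (if R' ∧ c then 1 else 0) +
      (if R' ∧ d then 1 else 0) ≤ 2 := by
  split_ifs <;> first | omega | (exfalso; tauto)

lemma ite_aux2 {R R' a b c d : Prop} [Decidable (R ∧ a)] [Decidable (R ∧ b)]
    [Decidable (R' ∧ c)] [Decidable (R' ∧ d)] (h : R → R' → False) (h1 : ¬ (a ∧ b)) (h2 : ¬ (c ∧ d)) :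
    (if R ∧ a then 1 else 0) + (if R ∧ b then 1 else 0) + (if R' ∧ c then 1 else 0) +
      (if R' ∧ d then 1 else 0) < 2 := by
  split_ifs <;> first | omega | (exfalso; tauto)

open Classical in
lemma card_bad {h : ℕ} (hk : k < h) :
    ((level k (2 * h) 1).filter fun p => ¬ ∀ σ, Spread h p.1 σ ∨ Spread h p.2 σ).card * 256 ^ h ≤
      16 ^ k * (2 * h * k) ^ (2 * k) * (2 * k - 1) ^ (4 * h) := by
  let Q : Finset ((Finset (Fin k) × Finset (Fin k)) × (Finset (Fin k) × Finset (Fin k))) :=
    univ.filter fun q => q.1.1.Nonempty ∧ q.1.2.Nonempty ∧ q.2.1.Nonempty ∧ q.2.2.Nonempty ∧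
      q.1.1.card + q.1.2.card + q.2.1.card + q.2.2.card ≤ 2 * k - 1
  have hsub : ((level k (2 * h) 1).filter fun p => ¬ ∀ σ, Spread h p.1 σ ∨ Spread h p.2 σ) ⊆
      Q.biUnion fun q => words k h q.1.1 q.1.2 ×ˢ words k h q.2.1 q.2.2 := by
    rintro ⟨U, V⟩ hp
    simp only [mem_filter, mem_level] at hp
    obtain ⟨h1, hall⟩ := hp
    have hc1 : ¬ IsCommon U V 2 := fun h => by have := isCommon_iff.1 h; omega
    obtain ⟨hU, hU1, hU2⟩ := mem_words hk U
    obtain ⟨hV, hV1, hV2⟩ := mem_words hk V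
    simp only [mem_biUnion, mem_product]
    refine ⟨((univ.filter fun σ => Rep U σ ∧ ∃ t : Fin (2 * h), t.val < h ∧ U t = σ,
      univ.filter fun σ => Rep U σ ∧ ∃ t : Fin (2 * h), h ≤ t.val ∧ U t = σ),
      (univ.filter fun σ => Rep V σ ∧ ∃ t : Fin (2 * h), t.val < h ∧ V t = σ,
      univ.filter fun σ => Rep V σ ∧ ∃ t : Fin (2 * h), h ≤ t.val ∧ V t = σ)), ?_, hU, hV⟩
    simp only [Q, mem_filter, mem_univ, true_and]
    refine ⟨hU1, hU2, hV1, hV2, ?_⟩
    push Not at hall
    obtain ⟨ρ, hρ1, hρ2⟩ := hall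
    rw [card_filter, card_filter, card_filter, card_filter]
    rw [← sum_add_distrib, ← sum_add_distrib, ← sum_add_distrib]
    have hlt : ∑ σ : Fin k, (((if Rep U σ ∧ ∃ t : Fin (2 * h), t.val < h ∧ U t = σ then 1 else 0) +
        (if Rep U σ ∧ ∃ t : Fin (2 * h), h ≤ t.val ∧ U t = σ then 1 else 0)) +
        (if Rep V σ ∧ ∃ t : Fin (2 * h), t.val < h ∧ V t = σ then 1 else 0) +
        (if Rep V σ ∧ ∃ t : Fin (2 * h), h ≤ t.val ∧ V t = σ then 1 else 0)) <
        ∑ _σ : Fin k, 2 := by
      refine sum_lt_sum (fun σ _ => ?_) ⟨ρ, mem_univ _, ?_⟩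
      · exact ite_aux1 (not_rep_rep hc1)
      · exact ite_aux2 (not_rep_rep hc1) hρ1 hρ2
    simp only [sum_const, card_univ, Fintype.card_fin, smul_eq_mul] at hlt
    omega
  have h1 := (card_le_card hsub).trans card_biUnion_le
  refine (Nat.mul_le_mul_right _ h1).trans ?_
  rw [sum_mul]
  refine (sum_le_card_nsmul _ _ ((2 * h * k) ^ (2 * k) * (2 * k - 1) ^ (4 * h)) ?_).trans ?_
  · intro q hq
    simp only [Q, mem_filter, mem_univ, true_and] at hq
    obtain ⟨a1, a2, a3, a4, hs⟩ := hq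
    rw [card_product]
    have b1 := card_words h _ _ a1 a2
    have b2 := card_words h _ _ a3 a4
    have b3 := Nat.pow_le_pow_left (amgm4 _ _ _ _ _ hs) h
    calc _ ≤ (2 * h * k) ^ k * (q.1.1.card * q.1.2.card) ^ h *
          ((2 * h * k) ^ k * (q.2.1.card * q.2.2.card) ^ h) * 256 ^ h := by gcongr
      _ = (2 * h * k) ^ (2 * k) *
          (q.1.1.card * q.1.2.card * (q.2.1.card * q.2.2.card) * 256) ^ h := by
        rw [mul_pow _ 256, mul_pow (q.1.1.card * q.1.2.card), two_mul k, pow_add]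
        ring
      _ ≤ _ := by
        rw [pow_mul (2 * k - 1)]
        gcongr
  · rw [smul_eq_mul, mul_assoc (16 ^ k)]
    refine Nat.mul_le_mul_right _ ((card_le_univ _).trans (le_of_eq ?_))
    simp only [Fintype.card_prod, Fintype.card_finset, Fintype.card_fin]
    rw [← mul_pow, ← mul_pow]
    norm_num

lemma bernoulli (b : ℕ) (hb : 1 ≤ b) : 2 * (b - 1) ^ b ≤ b ^ b := by
  obtain ⟨c, rfl⟩ : ∃ c, b = c + 1 := ⟨b - 1, by omega⟩
  simp only [Nat.add_sub_cancel]
  have h1 : (c + 1) ^ (c + 1) = ∑ m ∈ range (c + 1 + 1), c ^ m * 1 ^ (c + 1 - m) * (c + 1).choose m :=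
    add_pow c 1 (c + 1)
  rw [h1, sum_range_succ, sum_range_succ]
  simp only [one_pow, mul_one, Nat.choose_self, Nat.choose_succ_self_right]
  have : c ^ (c + 1) ≤ c ^ c * (c + 1) := by rw [pow_succ]; gcongr; omega
  omega

lemma level_one_upper (a q : ℕ) (ha : 1 ≤ a) (hq : 2 < q)
    (H : 16 ^ (2 * a) * (2 * (a * q) * (2 * a)) ^ (2 * (2 * a)) ≤ 2 ^ q) :
    (level (2 * a) (2 * (a * q)) 1).card ≤
      ((2 * (a * q) * (2 * a)) ^ 2 + 1) * (level (2 * a) (2 * (a * q)) 0).card := by
  classical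
  have hk : 2 * a < a * q := by nlinarith
  have h1 := card_good (k := 2 * a) (n := 2 * (a * q)) (a * q) (by omega)
  have h2 := card_bad hk
  have h3 := level_zero_lower (n := 2 * (a * q)) a
  have h4 := card_filter_add_card_filter_not (s := level (2 * a) (2 * (a * q)) 1)
    (fun p => ∀ σ, Spread (a * q) p.1 σ ∨ Spread (a * q) p.2 σ)
  have h5 : 2 ^ q * (2 * (2 * a) - 1) ^ (4 * (a * q)) ≤ a ^ (2 * (2 * (a * q))) * 256 ^ (a * q) := by
    have b := Nat.pow_le_pow_left (bernoulli (4 * a) (by omega)) q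
    rw [mul_pow, ← pow_mul, ← pow_mul] at b
    have e1 : 2 * (2 * a) - 1 = 4 * a - 1 := by omega
    have e2 : 4 * (a * q) = 4 * a * q := by ring
    rw [e1, e2]
    refine b.trans (le_of_eq ?_)
    rw [mul_pow, show (256 : ℕ) = 4 ^ 4 by norm_num, ← pow_mul, mul_comm]
    congr 2 <;> ring
  have h6 := h2.trans ((Nat.mul_le_mul_right _ H).trans h5)
  have h7 := Nat.le_of_mul_le_mul_right h6 (by positivity)
  rw [add_mul, one_mul, mul_comm ((2 * (a * q) * (2 * a)) ^ 2)]
  omega

end Pool.Agent.Work.MP_122049_pr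
end

-- merged part: Pool.Agent.Work.MP_122049_pr.Main
section
namespace Pool.Agent.Work.MP_122049_pr

open Finset

lemma ratio_bound (N : ℕ → ℕ) (r m : ℕ) (hpos : ∀ j ≤ m, 0 < N j)
    (hlc : ∀ j, N j * N (j + 2) ≤ N (j + 1) ^ 2) (h1 : N 1 ≤ r * N 0) :
    ∀ j ≤ m, N j ≤ r ^ j * N 0 := by
  have step : ∀ j ≤ m, N (j + 1) ≤ r * N j := by
    intro j
    induction j with
    | zero => exact fun _ => h1
    | succ j ih =>
      intro hj
      have h2 := ih (by omega)
      have h3 := hlc j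
      have h4 := hpos j (by omega)
      have h5 : N j * N (j + 2) ≤ N j * (r * N (j + 1)) := by
        calc _ ≤ N (j + 1) ^ 2 := h3
          _ = N (j + 1) * N (j + 1) := sq _
          _ ≤ r * N j * N (j + 1) := Nat.mul_le_mul_right _ h2
          _ = _ := by ring
      exact Nat.le_of_mul_le_mul_left h5 h4
  intro j
  induction j with
  | zero => simp
  | succ j ih =>
    intro hj
    calc N (j + 1) ≤ r * N j := step j (by omega)
      _ ≤ r * (r ^ j * N 0) := Nat.mul_le_mul_left _ (ih (by omega))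
      _ = _ := by ring

lemma not_logConcave (k n m r : ℕ) (hk : 2 ≤ k) (hm : m ≤ n) (hr : 1 ≤ r)
    (H1 : 2 * n.choose m ^ 2 ≤ k ^ m)
    (H2 : (level k n 1).card ≤ r * (level k n 0).card)
    (H3 : 2 * m * r ^ m * 2 ^ k < 4 ^ n) :
    ∃ j, (level k n (j + 1)).card ^ 2 < (level k n j).card * (level k n (j + 2)).card := by
  classical
  by_contra hcon
  push Not at hcon
  have hb := ratio_bound (fun j => (level k n j).card) r m
    (fun j hj => level_pos hk (hj.trans hm)) hcon H2
  have hup := card_upper (k := k) (n := n) m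
  have hsplit := card_filter_add_card_filter_not
    (s := (univ : Finset ((Fin n → Fin k) × (Fin n → Fin k)))) (fun p => m ≤ lcs p.1 p.2)
  have htot : (univ : Finset ((Fin n → Fin k) × (Fin n → Fin k))).card = k ^ (2 * n) := by
    simp [two_mul, pow_add]
  have hlow : (univ.filter fun p : (Fin n → Fin k) × (Fin n → Fin k) =>
      ¬ m ≤ lcs p.1 p.2).card ≤ m * (r ^ m * (level k n 0).card) := by
    have hsub : (univ.filter fun p : (Fin n → Fin k) × (Fin n → Fin k) => ¬ m ≤ lcs p.1 p.2) ⊆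
        (range m).biUnion fun j => level k n j := by
      intro p hp
      simp only [mem_filter, mem_univ, true_and, not_le] at hp
      simp only [mem_biUnion, mem_range, mem_level]
      exact ⟨_, hp, rfl⟩
    refine (card_le_card hsub).trans (card_biUnion_le.trans ?_)
    refine (sum_le_card_nsmul _ _ (r ^ m * (level k n 0).card) ?_).trans (by simp)
    intro j hj
    have hj' := (mem_range.1 hj).le
    exact (hb j hj').trans (Nat.mul_le_mul_right _ (Nat.pow_le_pow_right hr hj'))
  have hup2 : 2 * (n.choose m ^ 2 * (k ^ n * k ^ (n - m))) ≤ k ^ (2 * n) := by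
    calc _ = 2 * n.choose m ^ 2 * (k ^ n * k ^ (n - m)) := by ring
      _ ≤ k ^ m * (k ^ n * k ^ (n - m)) := Nat.mul_le_mul_right _ H1
      _ = _ := by
        rw [← pow_add, ← pow_add]
        congr 1
        omega
  have h0 := level_zero_upper (k := k) (n := n)
  have hT : k ^ (2 * n) ≤ 2 * (m * (r ^ m * (level k n 0).card)) := by omega
  have hTpos : 0 < k ^ (2 * n) := by positivity
  have : k ^ (2 * n) * 4 ^ n < k ^ (2 * n) * 4 ^ n := by
    calc k ^ (2 * n) * 4 ^ n ≤ 2 * (m * (r ^ m * (level k n 0).card)) * 4 ^ n :=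
          Nat.mul_le_mul_right _ hT
      _ = 2 * m * r ^ m * ((level k n 0).card * 4 ^ n) := by ring
      _ ≤ 2 * m * r ^ m * (2 ^ k * k ^ (2 * n)) := Nat.mul_le_mul_left _ h0
      _ = k ^ (2 * n) * (2 * m * r ^ m * 2 ^ k) := by ring
      _ < _ := Nat.mul_lt_mul_of_pos_left H3 hTpos
  exact lt_irrefl _ this

lemma choose_le (c m : ℕ) : (c * m).choose m ≤ (3 * c) ^ m := by
  rcases Nat.eq_zero_or_pos m with rfl | hm
  · simp
  have h1 : (((c * m).choose m : ℕ) : ℝ) ≤ (((c * m : ℕ) : ℝ) ^ m) / m.factorial :=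
    Nat.choose_le_pow_div m (c * m)
  have h2 : (m : ℝ) ^ m / m.factorial ≤ Real.exp m := Real.pow_div_factorial_le_exp _ (by positivity) m
  have h3 : Real.exp m ≤ 3 ^ m := by
    rw [← mul_one (m : ℝ), Real.exp_nat_mul]
    exact pow_le_pow_left₀ (Real.exp_pos 1).le (Real.exp_one_lt_d9.le.trans (by norm_num)) m
  have h4 : (((c * m).choose m : ℕ) : ℝ) ≤ ((3 * c : ℕ) : ℝ) ^ m := by
    refine h1.trans ?_
    push_cast
    rw [mul_pow, mul_div_assoc, mul_pow, mul_comm]
    exact mul_le_mul_of_nonneg_right (h2.trans h3) (by positivity)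
  exact_mod_cast h4

lemma H1_aux (m : ℕ) (hm : 2 ≤ m) : 2 * (64 * m).choose m ^ 2 ≤ 65536 ^ m := by
  have h1 := Nat.pow_le_pow_left (choose_le 64 m) 2
  rw [← pow_mul, mul_comm m 2, pow_mul] at h1
  obtain ⟨l, rfl⟩ : ∃ l, m = l + 2 := ⟨m - 2, by omega⟩
  have h2 : ((3 * 64) ^ 2) ^ l ≤ 65536 ^ l := Nat.pow_le_pow_left (by norm_num) l
  calc _ ≤ 2 * ((3 * 64) ^ 2) ^ (l + 2) := Nat.mul_le_mul_left _ h1
    _ = ((3 * 64) ^ 2) ^ l * (2 * ((3 * 64) ^ 2) ^ 2) := by rw [pow_add]; ring
    _ ≤ 65536 ^ l * 65536 ^ 2 := Nat.mul_le_mul h2 (by norm_num)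
    _ = _ := by rw [pow_add]

lemma H2_aux (k x q : ℕ) (hx : x ≤ 2 ^ 55) (hq : 114 * k ≤ q) : 16 ^ k * x ^ (2 * k) ≤ 2 ^ q := by
  calc _ ≤ (2 ^ 4) ^ k * (2 ^ 55) ^ (2 * k) :=
        Nat.mul_le_mul (by norm_num) (Nat.pow_le_pow_left hx _)
    _ = 2 ^ (114 * k) := by
        rw [← pow_mul, ← pow_mul, ← pow_add]
        congr 1
        ring
    _ ≤ _ := Nat.pow_le_pow_right (by norm_num) hq

lemma H3_aux (k n m r : ℕ) (hr : r ≤ 2 ^ 111) (h : 1 + m + 111 * m + k < 2 * n) :
    2 * m * r ^ m * 2 ^ k < 4 ^ n := by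
  calc _ ≤ 2 ^ 1 * 2 ^ m * (2 ^ 111) ^ m * 2 ^ k := by
        gcongr
        · norm_num
        · exact Nat.lt_two_pow_self.le
    _ = 2 ^ (1 + m + 111 * m + k) := by
        rw [← pow_mul, ← pow_add, ← pow_add, ← pow_add]
    _ < 2 ^ (2 * n) := Nat.pow_lt_pow_right (by norm_num) h
    _ = _ := by rw [pow_mul]; norm_num

lemma main_nat (a q m : ℕ) (ha : a = 2 ^ 15) (hq : q = 2 ^ 23) (hm : m = 2 ^ 33) :
    ∃ j, (level (2 * a) (2 * (a * q)) (j + 1)).card ^ 2 <
      (level (2 * a) (2 * (a * q)) j).card * (level (2 * a) (2 * (a * q)) (j + 2)).card := by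
  have e1 : 2 * (a * q) = 64 * m := by rw [ha, hq, hm]; norm_num
  have e2 : 2 * a = 65536 := by rw [ha]; norm_num
  have e3 : 2 * (a * q) * (2 * a) = 2 ^ 55 := by rw [ha, hq]; norm_num
  refine not_logConcave (2 * a) (2 * (a * q)) m ((2 * (a * q) * (2 * a)) ^ 2 + 1) (by omega)
    (by omega) (by omega) ?_ ?_ ?_
  · rw [e1, e2]
    exact H1_aux m (by rw [hm]; norm_num)
  · refine level_one_upper a q (by omega) (by rw [hq]; norm_num) ?_
    exact H2_aux _ _ _ e3.le (by rw [ha, hq]; norm_num)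
  · refine H3_aux _ _ _ _ (by rw [e3]; norm_num) ?_
    rw [ha, hq, hm]; norm_num

theorem main (k n : ℕ) (hk : k = 2 ^ 16) (hn : n = 2 ^ 39) :
    ∃ i, prob k n (i + 1) ^ 2 < prob k n i * prob k n (i + 2) := by
  obtain ⟨a, ha⟩ : ∃ a, a = 2 ^ 15 := ⟨_, rfl⟩
  obtain ⟨q, hq⟩ : ∃ q, q = 2 ^ 23 := ⟨_, rfl⟩
  obtain ⟨j, hj⟩ := main_nat a q _ ha hq rfl
  have e1 : 2 * a = k := by rw [ha, hk]; norm_num
  have e2 : 2 * (a * q) = n := by rw [ha, hq, hn]; norm_num
  rw [e1, e2] at hj
  refine ⟨j, ?_⟩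
  have hk0 : (0 : ℝ) < (k : ℝ) ^ (2 * n) := by
    have : (0 : ℝ) < k := by rw [hk]; norm_num
    positivity
  rw [prob_eq, prob_eq, prob_eq, div_pow, div_mul_div_comm, sq ((k : ℝ) ^ (2 * n))]
  refine div_lt_div_of_pos_right ?_ (by positivity)
  exact_mod_cast hj

end Pool.Agent.Work.MP_122049_pr
end
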